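import Pool.Agent.Run7.h608.BC.Iface

/-!
# Project BC, piece ARI

Only the cases `q = 1` and `q = 2` of the hypothesis are needed: they show that `β^N` is rational for some `N ≥ 1`.
-/

set_option autoImplicit false

open Filter Topology

namespace Run7.h514.BC

open Run7.h608.BC

/-- If `r^i x` tends to the integers, `r = A/B > 1` in lowest terms, then `B = 1` and `r^I x` is an integer. -/
theorem lemX (A B : ℕ) (hB : 0 < B) (hAB : B < A) (hco : Nat.Coprime A B) (x : ℝ) (hx : x ≠ 0)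
    (h : Tendsto (fun i : ℕ => ((A:ℝ) / B) ^ i * x - round (((A:ℝ) / B) ^ i * x)) atTop (𝓝 0)) :
    B = 1 ∧ ∃ (I : ℕ) (u : ℤ), ((A:ℝ) / B) ^ I * x = u := by
  have hB' : (0:ℝ) < B := by exact_mod_cast hB
  have hA' : (0:ℝ) < A := by exact_mod_cast hB.trans hAB
  have hr1 : (1:ℝ) < (A:ℝ) / B := by
    rw [lt_div_iff₀ hB', one_mul]
    exact_mod_cast hAB
  set r : ℝ := (A:ℝ) / B with hr
  set X : ℕ → ℝ := fun i => r ^ i * x with hX
  set u : ℕ → ℤ := fun i => round (X i) with hu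
  have hXs : ∀ i, (B:ℝ) * X (i + 1) = A * X i := by
    intro i
    simp only [hX]
    rw [pow_succ, hr]
    field_simp
  have hδ : (0:ℝ) < 1 / (A + B + 1) := by positivity
  have hev := (Metric.tendsto_atTop.1 h) _ hδ
  obtain ⟨I, hI⟩ := hev
  have hI' : ∀ i, I ≤ i → |X i - u i| < 1 / (A + B + 1) := by
    intro i hi
    have := hI i hi
    rwa [Real.dist_eq, sub_zero] at this
  have hrec : ∀ i, I ≤ i → (B:ℤ) * u (i + 1) = A * u i := by
    intro i hi
    have h1 := hI' i hi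
    have h2 := hI' (i + 1) (by omega)
    have h3 : |((B * u (i + 1) - A * u i : ℤ) : ℝ)| < 1 := by
      have e1 : ((B * u (i + 1) - A * u i : ℤ) : ℝ)
          = A * (X i - u i) - B * (X (i + 1) - u (i + 1)) := by
        push_cast
        linear_combination hXs i
      rw [e1]
      calc |A * (X i - u i) - B * (X (i + 1) - u (i + 1))|
          ≤ |A * (X i - u i)| + |B * (X (i + 1) - u (i + 1))| := abs_sub _ _
        _ = A * |X i - u i| + B * |X (i + 1) - u (i + 1)| := by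
            rw [abs_mul, abs_mul, abs_of_pos hA', abs_of_pos hB']
        _ ≤ A * (1 / (A + B + 1)) + B * (1 / (A + B + 1)) :=
            add_le_add (mul_le_mul_of_nonneg_left h1.le hA'.le)
              (mul_le_mul_of_nonneg_left h2.le hB'.le)
        _ < 1 := by
            rw [← add_mul, mul_one_div, div_lt_one (by positivity)]
            linarith
    have h4 : |(B * u (i + 1) - A * u i : ℤ)| < 1 := by
      exact_mod_cast h3
    have h5 : (B * u (i + 1) - A * u i : ℤ) = 0 := Int.abs_lt_one_iff.1 h4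
    linarith
  have hX0 : ∀ i, |x| ≤ |X i| := by
    intro i
    simp only [hX]
    rw [abs_mul, abs_of_pos (by positivity : (0:ℝ) < r ^ i)]
    exact le_mul_of_one_le_left (abs_nonneg _) (one_le_pow₀ hr1.le)
  have hB1 : B = 1 := by
    by_contra hne
    have hB2 : 2 ≤ B := by omega
    have hz : ∀ i, I ≤ i → u i = 0 := by
      intro i hi
      have hk : ∀ k, (B:ℤ) ^ k * u (i + k) = A ^ k * u i := by
        intro k
        induction k with
        | zero => simp
        | succ k ih =>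
          have := hrec (i + k) (by omega)
          calc (B:ℤ) ^ (k + 1) * u (i + (k + 1)) = B ^ k * (B * u (i + k + 1)) := by
                rw [pow_succ, add_assoc]; ring
            _ = B ^ k * (A * u (i + k)) := by rw [this]
            _ = A * (B ^ k * u (i + k)) := by ring
            _ = A ^ (k + 1) * u i := by rw [ih, pow_succ]; ring
      have hdvd : ∀ k, (B:ℤ) ^ k ∣ u i := by
        intro k
        have h1 : (B:ℤ) ^ k ∣ A ^ k * u i := ⟨_, (hk k).symm⟩
        have h2 : IsCoprime ((B:ℤ) ^ k) ((A:ℤ) ^ k) :=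
          (IsCoprime.pow (Nat.isCoprime_iff_coprime.2 hco.symm))
        exact h2.dvd_of_dvd_mul_left h1
      by_contra hne0
      have h1 := Int.natAbs_dvd_natAbs.2 (hdvd (u i).natAbs)
      have h2 := Nat.le_of_dvd (Int.natAbs_pos.2 hne0) h1
      rw [Int.natAbs_pow, Int.natAbs_natCast] at h2
      have h3 : (u i).natAbs < B ^ (u i).natAbs := Nat.lt_pow_self (by omega)
      omega
    have hx2 : 0 < |x| := abs_pos.2 hx
    obtain ⟨J, hJ⟩ := (Metric.tendsto_atTop.1 h) _ hx2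
    have h1 := hJ (max I J) (le_max_right _ _)
    rw [Real.dist_eq, sub_zero] at h1
    have h2 := hz (max I J) (le_max_left _ _)
    have h3 : |X (max I J) - u (max I J)| < |x| := h1
    rw [h2, Int.cast_zero, sub_zero] at h3
    exact absurd (hX0 (max I J)) (not_le.2 h3)
  refine ⟨hB1, I, u I, ?_⟩
  have he : ∀ k, X (I + k) - u (I + k) = A ^ k * (X I - u I) := by
    intro k
    induction k with
    | zero => simp
    | succ k ih =>
      have h1 := hrec (I + k) (by omega)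
      have h2 := hXs (I + k)
      rw [hB1] at h1 h2
      simp only [Nat.cast_one, one_mul] at h1 h2
      have h1' : (u (I + k + 1) : ℝ) = A * u (I + k) := by exact_mod_cast h1
      rw [← add_assoc, h2, h1', pow_succ]
      linear_combination (A:ℝ) * ih
  by_contra hne
  have hpos : 0 < |X I - u I| := abs_pos.2 (sub_ne_zero.2 hne)
  obtain ⟨J, hJ⟩ := (Metric.tendsto_atTop.1 h) _ hpos
  have h1 := hJ (I + J) (by omega)
  rw [Real.dist_eq, sub_zero] at h1
  have h3 : |X (I + J) - u (I + J)| < |X I - u I| := h1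
  rw [he J, abs_mul, abs_of_pos (by positivity : (0:ℝ) < (A:ℝ) ^ J)] at h3
  have hA1 : (1:ℝ) ≤ A := by exact_mod_cast (by omega : 1 ≤ A)
  exact absurd (le_mul_of_one_le_left hpos.le (one_le_pow₀ hA1)) (not_le.2 h3)

theorem lemY (β ξ : ℝ) (h1 : 1 < β) (hξ : ξ ≠ 0)
    (hT : Tendsto (fun j : ℕ => β ^ j * ξ - round (β ^ j * ξ)) atTop (𝓝 0))
    (N : ℕ) (hN : 1 ≤ N) (q : ℚ) (hq : β ^ N = (q : ℝ)) (j : ℕ) :
    q.den = 1 ∧ ∃ (I : ℕ) (u : ℤ), β ^ (N * I + j) * ξ = u := by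
  have hq1 : (1:ℝ) < q := by
    rw [← hq]
    exact one_lt_pow₀ h1 (by omega)
  have hq1' : (1:ℚ) < q := by exact_mod_cast hq1
  have hnum : 0 < q.num := Rat.num_pos.2 (by linarith)
  obtain ⟨A, hA⟩ := Int.eq_ofNat_of_zero_le hnum.le
  have hr : ((A:ℝ) / (q.den:ℝ)) = β ^ N := by
    rw [hq, Rat.cast_def, hA]
    simp
  have hden : (0:ℝ) < q.den := by exact_mod_cast q.den_pos
  have hlt : q.den < A := by
    have h2 : (1:ℝ) < (A:ℝ) / (q.den:ℝ) := by
      rw [hr, hq]
      exact hq1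
    rw [lt_div_iff₀ hden, one_mul] at h2
    exact_mod_cast h2
  have hco : Nat.Coprime A q.den := by
    have h2 := q.reduced
    rw [hA] at h2
    simpa using h2
  have hx : β ^ j * ξ ≠ 0 := mul_ne_zero (pow_ne_zero _ (by linarith)) hξ
  have hsub : Tendsto (fun i : ℕ => ((A:ℝ) / (q.den:ℝ)) ^ i * (β ^ j * ξ)
      - round (((A:ℝ) / (q.den:ℝ)) ^ i * (β ^ j * ξ))) atTop (𝓝 0) := by
    have hmono : Tendsto (fun i : ℕ => N * i + j) atTop atTop := by
      refine tendsto_atTop_mono (fun i => ?_) tendsto_id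
      show i ≤ N * i + j
      nlinarith
    have h2 := hT.comp hmono
    refine h2.congr fun i => ?_
    show β ^ (N * i + j) * ξ - round (β ^ (N * i + j) * ξ) = _
    rw [hr, pow_add, pow_mul, mul_assoc]
  obtain ⟨hB, I, u, hu⟩ := lemX A q.den q.den_pos hlt hco _ hx hsub
  refine ⟨hB, I, u, ?_⟩
  rw [← hu, hr, pow_add, pow_mul, mul_assoc]

theorem t_ARI : S_ARI := by
  intro β ξ h1 h2 hξ hq hT
  have hβ0 : (0:ℝ) < β := by linarith
  obtain ⟨j1, a1, e1⟩ := hq 1 le_rfl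
  obtain ⟨j2, a2, e2⟩ := hq 2 (by norm_num)
  push_cast at e1 e2
  have ho1 : (2 * (a1:ℝ) + 1) ≠ 0 := by
    intro h0
    have : (2 * a1 + 1 : ℤ) = 0 := by exact_mod_cast h0
    omega
  have ho2 : (2 * (a2:ℝ) + 1) ≠ 0 := by
    intro h0
    have : (2 * a2 + 1 : ℤ) = 0 := by exact_mod_cast h0
    omega
  have hkey : β ^ (j1 - j2) * (2 * (a2:ℝ) + 1) = 2 * (2 * (a1:ℝ) + 1) := by
    rw [← e1, ← e2, zpow_sub₀ hβ0.ne']
    have : β ^ j2 ≠ 0 := zpow_ne_zero _ hβ0.ne'
    field_simp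
  have hne : j1 - j2 ≠ 0 := by
    intro h0
    rw [h0, zpow_zero, one_mul] at hkey
    have : (2 * a2 + 1 : ℤ) = 2 * (2 * a1 + 1) := by exact_mod_cast hkey
    omega
  have hN : ∃ (N : ℕ) (q : ℚ), 1 ≤ N ∧ β ^ N = (q : ℝ) := by
    rcases lt_or_gt_of_ne hne with hlt | hgt
    · refine ⟨(j2 - j1).toNat, (2 * a2 + 1) / (2 * (2 * a1 + 1)), by omega, ?_⟩
      have h3 : (((j2 - j1).toNat : ℕ) : ℤ) = -(j1 - j2) := by omega
      rw [← zpow_natCast, h3, zpow_neg]
      push_cast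
      rw [← hkey, div_eq_mul_inv, mul_inv]
      have : β ^ (j1 - j2) ≠ 0 := zpow_ne_zero _ hβ0.ne'
      field_simp
    · refine ⟨(j1 - j2).toNat, (2 * (2 * a1 + 1)) / (2 * a2 + 1), by omega, ?_⟩
      have h3 : (((j1 - j2).toNat : ℕ) : ℤ) = j1 - j2 := by omega
      rw [← zpow_natCast, h3]
      push_cast
      rw [← hkey]
      field_simp
  obtain ⟨N, q, hN1, hq⟩ := hN
  obtain ⟨-, I0, u0, hu0⟩ := lemY β ξ h1 hξ hT N hN1 q hq 0
  obtain ⟨-, I1, u1, hu1⟩ := lemY β ξ h1 hξ hT N hN1 q hq 1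
  have hqp : (0:ℝ) < q := by rw [← hq]; positivity
  rw [add_zero, pow_mul, hq] at hu0
  rw [pow_succ, pow_mul, hq] at hu1
  have hu0' : (u0:ℝ) ≠ 0 := by
    rw [← hu0]
    exact mul_ne_zero (pow_ne_zero _ hqp.ne') hξ
  have hβq : β ^ 1 = (((u1 : ℚ) * q ^ I0 / (u0 * q ^ I1) : ℚ) : ℝ) := by
    push_cast
    rw [← hu1, ← hu0, pow_one]
    have h3 : (q:ℝ) ^ I0 ≠ 0 := pow_ne_zero _ hqp.ne'
    have h4 : (q:ℝ) ^ I1 ≠ 0 := pow_ne_zero _ hqp.ne'
    field_simp
  obtain ⟨hd, -⟩ := lemY β ξ h1 hξ hT 1 le_rfl _ hβq 0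
  set Q : ℚ := (u1 : ℚ) * q ^ I0 / (u0 * q ^ I1) with hQ
  have hQi : Q = (Q.num : ℚ) := (Rat.den_eq_one_iff Q).1 hd |>.symm
  rw [pow_one] at hβq
  have h5 : β = (Q.num : ℝ) := by
    rw [hβq, hQi]
    push_cast
    rfl
  have h6 : (1:ℤ) < Q.num := by
    rw [h5] at h1
    exact_mod_cast h1
  have h7 : Q.num < 2 := by
    rw [h5] at h2
    exact_mod_cast h2
  omega

end Run7.h514.BC
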