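import Pool.Agent.Run7.h608.BC.Iface

/-!
# Project BC, piece PRD: the products of the mask tend to zero
-/

set_option autoImplicit false

open Filter Topology

namespace Run7.h514.BC

open Run7.h608.BC

theorem m_eq (ξ : ℝ) : m ξ = ((Real.cos (Real.pi * ξ) : ℝ) : ℂ) * e (-ξ / 2) := by
  unfold m e
  set w : ℂ := ((2 * Real.pi * (-ξ / 2) : ℝ) : ℂ) * Complex.I with hw
  have h1 : ((2 * Real.pi * (-ξ) : ℝ) : ℂ) * Complex.I = w + w := by
    rw [hw]
    push_cast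
    ring
  have h2 : ((Real.pi * ξ : ℝ) : ℂ) * Complex.I = -w := by
    rw [hw]
    push_cast
    ring
  have h3 : -((Real.pi * ξ : ℝ) : ℂ) * Complex.I = w := by
    rw [neg_mul, h2, neg_neg]
  rw [h1, Complex.exp_add, Complex.ofReal_cos, Complex.cos, h2, h3]
  have h4 : Complex.exp (-w) * Complex.exp w = 1 := by
    rw [← Complex.exp_add, neg_add_cancel, Complex.exp_zero]
  linear_combination (-(1:ℂ) / 2) * h4

theorem norm_m (ξ : ℝ) : ‖m ξ‖ = |Real.cos (Real.pi * ξ)| := by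
  rw [m_eq, norm_mul, Complex.norm_real, Real.norm_eq_abs]
  unfold e
  rw [Complex.norm_exp_ofReal_mul_I, mul_one]

theorem norm_mk (β : ℝ) (k : ℕ) (ξ : ℝ) :
    ‖mk β k ξ‖ = ∏ j ∈ Finset.range k, |Real.cos (Real.pi * (β ^ j * ξ))| := by
  unfold Run7.h608.BC.mk
  rw [norm_prod]
  exact Finset.prod_congr rfl fun j _ => norm_m _

theorem H_iter {β : ℝ} {H : ℝ → ℂ} (hH : FT β H) (k : ℕ) (η : ℝ) :
    H (β ^ k * η) = mk β k η * H η := by
  induction k with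
  | zero => simp [Run7.h608.BC.mk]
  | succ k ih =>
    have h1 : β ^ (k + 1) * η = β * (β ^ k * η) := by ring
    rw [h1, hH.fe, ih]
    unfold Run7.h608.BC.mk
    rw [Finset.prod_range_succ]
    ring

/-- distance to the nearest integer, with sign -/
noncomputable def ep (β ξ : ℝ) (j : ℕ) : ℝ := β ^ j * ξ - round (β ^ j * ξ)

theorem cos_ep (β ξ : ℝ) (q : ℕ) (j : ℕ) :
    |Real.cos (Real.pi * (q * (β ^ j * ξ)))| = |Real.cos (Real.pi * (q * ep β ξ j))| := by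
  have h1 : Real.pi * (q * (β ^ j * ξ))
      = Real.pi * (q * ep β ξ j) + ((q * round (β ^ j * ξ) : ℤ) : ℝ) * Real.pi := by
    unfold ep
    push_cast
    ring
  rw [h1, Real.cos_add_int_mul_pi, abs_mul]
  have h2 : |((-1:ℝ)) ^ ((q * round (β ^ j * ξ) : ℤ))| = 1 := by
    rw [abs_zpow, abs_neg, abs_one, one_zpow]
  rw [h2, one_mul]

theorem abs_ep (β ξ : ℝ) (j : ℕ) : |ep β ξ j| ≤ 1 / 2 := abs_sub_round _

theorem cos_le (β ξ : ℝ) (j : ℕ) :
    |Real.cos (Real.pi * (β ^ j * ξ))| ≤ Real.exp (-(2 * ep β ξ j ^ 2)) := by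
  have h0 := cos_ep β ξ 1 j
  rw [Nat.cast_one, one_mul, one_mul] at h0
  rw [h0]
  have h1 := abs_ep β ξ j
  have hpi := Real.pi_pos
  obtain ⟨h2, h3⟩ := abs_le.1 h1
  have h4 : 0 ≤ Real.cos (Real.pi * ep β ξ j) := by
    apply Real.cos_nonneg_of_neg_pi_div_two_le_of_le
    · nlinarith
    · nlinarith
  rw [abs_of_nonneg h4]
  have h5 : Real.cos (Real.pi * ep β ξ j) ≤ 1 - 2 / Real.pi ^ 2 * (Real.pi * ep β ξ j) ^ 2 := by
    apply Real.cos_le_one_sub_mul_cos_sq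
    rw [abs_mul, abs_of_pos hpi]
    nlinarith
  have h6 : 2 / Real.pi ^ 2 * (Real.pi * ep β ξ j) ^ 2 = 2 * ep β ξ j ^ 2 := by
    field_simp
  rw [h6] at h5
  refine h5.trans ?_
  have h7 := Real.add_one_le_exp (-(2 * ep β ξ j ^ 2))
  linarith

theorem le_cos (β ξ : ℝ) (q : ℕ) (j : ℕ) :
    1 - 5 * (q:ℝ) ^ 2 * ep β ξ j ^ 2 ≤ |Real.cos (Real.pi * (q * (β ^ j * ξ)))| := by
  rw [cos_ep]
  have h1 := Real.one_sub_sq_div_two_le_cos (x := Real.pi * (q * ep β ξ j))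
  have h2 := le_abs_self (Real.cos (Real.pi * (q * ep β ξ j)))
  have h3 : Real.pi ^ 2 ≤ 10 := by
    have := Real.pi_lt_d2
    have := Real.pi_pos
    nlinarith
  have h4 : (Real.pi * (q * ep β ξ j)) ^ 2 / 2 ≤ 5 * (q:ℝ) ^ 2 * ep β ξ j ^ 2 := by
    have h5 : (Real.pi * (q * ep β ξ j)) ^ 2 / 2 = Real.pi ^ 2 * ((q:ℝ) ^ 2 * ep β ξ j ^ 2) / 2 := by
      ring
    rw [h5]
    have h6 : 0 ≤ (q:ℝ) ^ 2 * ep β ξ j ^ 2 := by positivity
    nlinarith
  linarith

theorem prod_lower (a x : ℕ → ℝ) (h0 : ∀ i, 0 ≤ a i) (h1 : ∀ i, a i ≤ 1) (hx : ∀ i, 0 ≤ x i)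
    (h : ∀ i, 1 - x i ≤ a i) (n : ℕ) :
    1 - ∑ i ∈ Finset.range n, x i ≤ ∏ i ∈ Finset.range n, a i := by
  induction n with
  | zero => simp
  | succ n ih =>
    rw [Finset.sum_range_succ, Finset.prod_range_succ]
    have hP0 : 0 ≤ ∏ i ∈ Finset.range n, a i := Finset.prod_nonneg fun i _ => h0 i
    have hP1 : ∏ i ∈ Finset.range n, a i ≤ 1 := Finset.prod_le_one (fun i _ => h0 i) fun i _ => h1 i
    have h2 := mul_le_mul_of_nonneg_left (h n) hP0
    have h3 := mul_le_mul_of_nonneg_right hP1 (hx n)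
    nlinarith

theorem t_PRD (hARI : S_ARI) : S_PRD := by
  intro β H h1 h2 hH ξ hξ
  by_contra hnot
  have hβ0 : (0:ℝ) < β := by linarith
  -- lower bound for the products
  have hc : ∃ c : ℝ, 0 < c ∧ ∀ k, c ≤ ‖mk β k ξ‖ := by
    have hanti : Antitone fun k : ℕ => ‖mk β k ξ‖ := by
      refine antitone_nat_of_succ_le fun k => ?_
      rw [norm_mk, norm_mk, Finset.prod_range_succ]
      exact mul_le_of_le_one_right (Finset.prod_nonneg fun i _ => abs_nonneg _)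
        (Real.abs_cos_le_one _)
    have hbdd : BddBelow (Set.range fun k : ℕ => ‖mk β k ξ‖) :=
      ⟨0, by rintro _ ⟨k, rfl⟩; exact norm_nonneg _⟩
    have hlim := tendsto_atTop_ciInf hanti hbdd
    refine ⟨⨅ k, ‖mk β k ξ‖, ?_, fun k => ciInf_le hbdd k⟩
    rcases (le_ciInf fun k => norm_nonneg (mk β k ξ) : (0:ℝ) ≤ ⨅ k, ‖mk β k ξ‖).lt_or_eq with hlt | heq
    · exact hlt
    · rw [← heq] at hlim
      exact absurd (tendsto_zero_iff_norm_tendsto_zero.2 hlim) hnot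
  obtain ⟨c, hc0, hc⟩ := hc
  have hsum : Summable fun j : ℕ => ep β ξ j ^ 2 := by
    refine summable_of_sum_range_le (c := -Real.log c / 2) (fun j => sq_nonneg _) fun k => ?_
    have h3 : c ≤ Real.exp (-(2 * ∑ j ∈ Finset.range k, ep β ξ j ^ 2)) := by
      refine (hc k).trans ?_
      rw [norm_mk, Finset.mul_sum, ← Finset.sum_neg_distrib, Real.exp_sum]
      exact Finset.prod_le_prod (fun i _ => abs_nonneg _) fun i _ => cos_le β ξ i
    have h4 := Real.log_le_log hc0 h3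
    rw [Real.log_exp] at h4
    linarith
  have hep : Tendsto (fun j : ℕ => ep β ξ j) atTop (𝓝 0) := by
    have h3 := hsum.tendsto_atTop_zero
    have h4 : Tendsto (fun j : ℕ => |ep β ξ j|) atTop (𝓝 0) := by
      have h5 := (Real.continuous_sqrt.tendsto 0).comp h3
      rw [Real.sqrt_zero] at h5
      refine h5.congr fun j => ?_
      exact Real.sqrt_sq_eq_abs _
    exact (tendsto_zero_iff_abs_tendsto_zero _).2 h4
  refine hARI β ξ h1 h2 hξ (fun q hq => ?_) hep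
  have hq0 : (0:ℝ) < q := by exact_mod_cast hq
  -- a point near zero
  have hp : ∃ p : ℕ, H (q * ξ / β ^ p) ≠ 0 := by
    have h3 : Tendsto (fun p : ℕ => q * ξ / β ^ p) atTop (𝓝 0) :=
      tendsto_const_nhds.div_atTop (tendsto_pow_atTop_atTop_of_one_lt h1)
    have h4 : Tendsto (fun p : ℕ => H (q * ξ / β ^ p)) atTop (𝓝 (H 0)) :=
      (hH.smooth.continuous.tendsto 0).comp h3
    rw [hH.zero] at h4
    exact (h4.eventually_ne one_ne_zero).exists
  obtain ⟨p, hp⟩ := hp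
  set η : ℝ := q * ξ / β ^ p with hη
  have hβp : β ^ p ≠ 0 := pow_ne_zero _ hβ0.ne'
  have hη0 : η ≠ 0 := div_ne_zero (mul_ne_zero hq0.ne' hξ) hβp
  have hmk : Tendsto (fun K : ℕ => ‖mk β K η‖) atTop (𝓝 0) := by
    have h3 : Tendsto (fun K : ℕ => β ^ K * η) atTop (cocompact ℝ) := by
      rw [← Metric.cobounded_eq_cocompact, ← tendsto_norm_atTop_iff_cobounded]
      have h4 : ∀ K : ℕ, ‖β ^ K * η‖ = β ^ K * |η| := by
        intro K
        rw [norm_mul, Real.norm_eq_abs, Real.norm_eq_abs, abs_of_pos (pow_pos hβ0 K)]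
      simp only [h4]
      exact (tendsto_pow_atTop_atTop_of_one_lt h1).atTop_mul_const (abs_pos.2 hη0)
    have h4 : Tendsto (fun K : ℕ => H (β ^ K * η)) atTop (𝓝 0) := hH.lim.comp h3
    have h5 : Tendsto (fun K : ℕ => mk β K η) atTop (𝓝 0) := by
      have h6 : Tendsto (fun K : ℕ => H (β ^ K * η) * (H η)⁻¹) atTop (𝓝 (0 * (H η)⁻¹)) :=
        h4.mul_const _
      rw [zero_mul] at h6
      refine h6.congr fun K => ?_
      rw [H_iter hH, mul_assoc, mul_inv_cancel₀ hp, mul_one]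
    exact tendsto_zero_iff_norm_tendsto_zero.1 h5
  -- the tail
  have hJ : ∃ J : ℕ, ∑' k, ep β ξ (k + J) ^ 2 < 1 / (10 * (q:ℝ) ^ 2) := by
    have h3 := tendsto_sum_nat_add fun j : ℕ => ep β ξ j ^ 2
    exact (h3.eventually (gt_mem_nhds (by positivity : (0:ℝ) < 1 / (10 * (q:ℝ) ^ 2)))).exists
  obtain ⟨J, hJ⟩ := hJ
  have htail : ∀ n : ℕ, (1:ℝ) / 2 ≤
      ∏ i ∈ Finset.range n, |Real.cos (Real.pi * (β ^ (p + J + i) * η))| := by
    intro n
    have h3 : ∀ i : ℕ, β ^ (p + J + i) * η = q * (β ^ (i + J) * ξ) := by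
      intro i
      rw [hη, show p + J + i = p + (i + J) by ring, pow_add]
      field_simp
    simp only [h3]
    have h4 := prod_lower (fun i => |Real.cos (Real.pi * (q * (β ^ (i + J) * ξ)))|)
      (fun i => 5 * (q:ℝ) ^ 2 * ep β ξ (i + J) ^ 2) (fun i => abs_nonneg _)
      (fun i => Real.abs_cos_le_one _) (fun i => by positivity) (fun i => le_cos β ξ q (i + J)) n
    refine le_trans ?_ h4
    rw [← Finset.mul_sum]
    have h5 : ∑ i ∈ Finset.range n, ep β ξ (i + J) ^ 2 ≤ ∑' k, ep β ξ (k + J) ^ 2 :=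
      ((summable_nat_add_iff J).2 hsum).sum_le_tsum _ fun i _ => sq_nonneg _
    have h6 : 5 * (q:ℝ) ^ 2 * ∑ i ∈ Finset.range n, ep β ξ (i + J) ^ 2
        ≤ 5 * (q:ℝ) ^ 2 * (1 / (10 * (q:ℝ) ^ 2)) :=
      mul_le_mul_of_nonneg_left (h5.trans hJ.le) (by positivity)
    have h7 : 5 * (q:ℝ) ^ 2 * (1 / (10 * (q:ℝ) ^ 2)) = 1 / 2 := by
      field_simp
      norm_num
    linarith
  have hzero : ∏ j ∈ Finset.range (p + J), |Real.cos (Real.pi * (β ^ j * η))| = 0 := by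
    have h0 : 0 ≤ ∏ j ∈ Finset.range (p + J), |Real.cos (Real.pi * (β ^ j * η))| :=
      Finset.prod_nonneg fun i _ => abs_nonneg _
    refine le_antisymm ?_ h0
    have h3 : Tendsto (fun n : ℕ => 2 * ‖mk β (p + J + n) η‖) atTop (𝓝 (2 * 0)) := by
      refine Tendsto.const_mul _ (hmk.comp ?_)
      exact tendsto_atTop_mono (fun n => Nat.le_add_left n (p + J)) tendsto_id
    rw [mul_zero] at h3
    refine ge_of_tendsto' h3 fun n => ?_
    rw [norm_mk, Finset.prod_range_add _ (p + J) n]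
    have h4 := mul_le_mul_of_nonneg_left (htail n) h0
    linarith
  obtain ⟨j, -, hj⟩ := Finset.prod_eq_zero_iff.1 hzero
  rw [abs_eq_zero, Real.cos_eq_zero_iff] at hj
  obtain ⟨a, ha⟩ := hj
  refine ⟨(j:ℤ) - p, a, ?_⟩
  have h3 : β ^ ((j:ℤ) - p) = β ^ j / β ^ p := by
    rw [zpow_sub₀ hβ0.ne', zpow_natCast, zpow_natCast]
  have h4 : β ^ j * η = (2 * (a:ℝ) + 1) / 2 := by
    have hpi := Real.pi_pos
    have h5 : Real.pi * (β ^ j * η) = Real.pi * ((2 * (a:ℝ) + 1) / 2) := by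
      rw [ha]
      ring
    exact mul_left_cancel₀ hpi.ne' h5
  have h5 : β ^ ((j:ℤ) - p) * ξ * q = β ^ j * η := by
    rw [h3, hη]
    field_simp
  calc 2 * (q:ℝ) * β ^ ((j:ℤ) - p) * ξ = 2 * (β ^ ((j:ℤ) - p) * ξ * q) := by ring
    _ = 2 * (a:ℝ) + 1 := by rw [h5, h4]; ring

end Run7.h514.BC
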